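import Mathlib

/-!
# Graceful supertrees of trees with few leaves: definitions and the statements of the parts
-/

set_option autoImplicit false

namespace Pool.Agent.TH56.FL

/-- the jumps of the parent function `p` on `{1, …, m}`: the indices whose parent is not the predecessor -/
def jumps (m : ℕ) (p : ℕ → ℕ) : Finset ℕ := (Finset.Icc 1 m).filter (fun k => p k + 1 ≠ k)

/-- The positions (`times`): `τ i` is the position of the vertex number `i`, `w k` is the special position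
belonging to the jump `k`. -/
structure Good (m : ℕ) (p : ℕ → ℕ) (M : ℕ) (τ w : ℕ → ℕ) : Prop where
  top : τ 0 = M
  lt : ∀ i j, i < j → j ≤ m → τ j < τ i
  sum : ∀ k ∈ jumps m p, τ (p k) + τ k = 2 * w k + 1
  below : ∀ k ∈ jumps m p, τ k + 3 ≤ w k
  ne_w : ∀ i ≤ m, ∀ k ∈ jumps m p, τ i ≠ w k ∧ τ i + 1 ≠ w k
  sep : ∀ k ∈ jumps m p, ∀ l ∈ jumps m p, k ≠ l → w k + 3 ≤ w l ∨ w l + 3 ≤ w k
  start : ∀ k ∈ jumps m p, ∀ l ∈ jumps m p, τ k + 2 ≠ w l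
  step : ∀ i, 1 ≤ i → i ≤ m → i ∉ jumps m p →
    (τ (i - 1) = τ i + 1 ∧ ∀ k ∈ jumps m p, τ i + 2 ≠ w k) ∨
    (∃ k ∈ jumps m p, τ i + 2 = w k ∧ τ (i - 1) = w k + 1)

/-- A graph with `m` edges is graceful if there is an injective map `f` of the vertices to
`{0, 1, …, m}` such that the edge labels `|f u - f v|` are exactly `1, …, m`. -/
def Graceful {V : Type} (T : SimpleGraph V) : Prop :=
  ∃ f : V → ℕ, Function.Injective f ∧ (∀ v, f v ≤ T.edgeSet.ncard) ∧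
    {d : ℕ | ∃ u v : V, T.Adj u v ∧ d = Int.natAbs ((f u : ℤ) - (f v : ℤ))} =
      Set.Icc 1 T.edgeSet.ncard

/-- Part I: positions exist -/
def PosStm : Prop := ∀ (m : ℕ) (p : ℕ → ℕ), (∀ i, 1 ≤ i → i ≤ m → p i < i) →
  ∃ τ w : ℕ → ℕ, Good m p (m + (jumps m p).card * (22 * (jumps m p).card + 25)) τ w

/-- Part II: the supertree on the positions `0, …, M` -/
def SupStm : Prop := ∀ (m : ℕ) (p : ℕ → ℕ), (∀ i, 1 ≤ i → i ≤ m → p i < i) → ∀ (M : ℕ) (τ w : ℕ → ℕ),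
  Good m p M τ w → ∃ T' : SimpleGraph (Fin (M + 1)), T'.IsTree ∧ T'.edgeSet.ncard = M ∧ Graceful T' ∧
    ∀ i, 1 ≤ i → i ≤ m → ∀ a b : Fin (M + 1), (a : ℕ) = τ i → (b : ℕ) = τ (p i) → T'.Adj a b

/-- Part III: an enumeration of the vertices of a tree with at most `λ - 2` jumps -/
def OrdStm : Prop := ∀ (V : Type) [Fintype V] (T : SimpleGraph V), T.IsTree → 1 ≤ T.edgeSet.ncard →
  ∃ (v : ℕ → V) (p : ℕ → ℕ), (∀ i, 1 ≤ i → i ≤ T.edgeSet.ncard → p i < i) ∧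
    (∀ i j, i ≤ T.edgeSet.ncard → j ≤ T.edgeSet.ncard → v i = v j → i = j) ∧
    (∀ x : V, ∃ i ≤ T.edgeSet.ncard, v i = x) ∧
    (∀ x y : V, T.Adj x y → ∃ i, 1 ≤ i ∧ i ≤ T.edgeSet.ncard ∧
      ((v i = x ∧ v (p i) = y) ∨ (v i = y ∧ v (p i) = x))) ∧
    (jumps T.edgeSet.ncard p).card + 2 ≤ {x : V | (T.neighborSet x).ncard = 1}.ncard

end Pool.Agent.TH56.FL
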