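import Pool.Agent.TH56.FL.Def

/-!
# Graceful supertrees of trees with few leaves: assembly of the parts
-/

set_option autoImplicit false

namespace Pool.Agent.TH56.FL

theorem fin_main (hpos : PosStm) (hsup : SupStm) (hord : OrdStm) {V : Type} [Fintype V]
    {T : SimpleGraph V} (hT : T.IsTree) (h1 : 1 ≤ T.edgeSet.ncard) :
    ∃ J : ℕ, J + 2 ≤ {x : V | (T.neighborSet x).ncard = 1}.ncard ∧
      ∃ (M : ℕ) (T' : SimpleGraph (Fin (M + 1))), T'.IsTree ∧ Graceful T' ∧ T.IsContained T' ∧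
        T'.edgeSet.ncard = M ∧ M = T.edgeSet.ncard + J * (22 * J + 25) := by
  classical
  obtain ⟨v, p, hp, hinj, hsurj, hadj, hJ⟩ := hord V T hT h1
  set m : ℕ := T.edgeSet.ncard with hm
  refine ⟨(jumps m p).card, hJ, m + (jumps m p).card * (22 * (jumps m p).card + 25), ?_⟩
  obtain ⟨τ, w, hG⟩ := hpos m p hp
  obtain ⟨T', t1, t2, t3, t4⟩ := hsup m p hp _ τ w hG
  refine ⟨T', t1, t3, ?_, t2, rfl⟩
  choose idx hidx1 hidx2 using hsurj
  have hτ : ∀ i ≤ m, τ i < m + (jumps m p).card * (22 * (jumps m p).card + 25) + 1 := by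
    intro i hi
    rcases Nat.eq_zero_or_pos i with h0 | h0
    · rw [h0, hG.top]
      exact Nat.lt_succ_self _
    · have h2 := hG.lt 0 i h0 hi
      rw [hG.top] at h2
      omega
  have hτinj : ∀ i j, i ≤ m → j ≤ m → τ i = τ j → i = j := by
    intro i j hi hj hij
    rcases Nat.lt_trichotomy i j with h | h | h
    · have := hG.lt i j h hj
      omega
    · exact h
    · have := hG.lt j i h hi
      omega
  have hvidx : ∀ i ≤ m, idx (v i) = i := fun i hi => hinj _ _ (hidx1 _) hi (hidx2 _)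
  refine ⟨⟨⟨fun x => ⟨τ (idx x), hτ _ (hidx1 x)⟩, ?_⟩, ?_⟩⟩
  · intro x y hxy
    obtain ⟨i, hi1, hi2, hi3⟩ := hadj x y hxy
    have hpi : p i ≤ m := (hp i hi1 hi2).le.trans hi2
    rcases hi3 with ⟨ha, hb⟩ | ⟨ha, hb⟩
    · refine t4 i hi1 hi2 _ _ ?_ ?_
      · show τ (idx x) = τ i
        rw [← ha, hvidx i hi2]
      · show τ (idx y) = τ (p i)
        rw [← hb, hvidx _ hpi]
    · refine (t4 i hi1 hi2 _ _ ?_ ?_).symm
      · show τ (idx y) = τ i
        rw [← ha, hvidx i hi2]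
      · show τ (idx x) = τ (p i)
        rw [← hb, hvidx _ hpi]
  · intro x y hxy
    have h2 : τ (idx x) = τ (idx y) := congrArg (fun z : Fin _ => (z : ℕ)) hxy
    have h3 := hτinj _ _ (hidx1 x) (hidx1 y) h2
    rw [← hidx2 x, ← hidx2 y, h3]

end Pool.Agent.TH56.FL
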