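import Pool.Agent.TH56.FL.Def

/-!
# Part III: an enumeration of the vertices of a tree with at most `λ - 2` jumps (job 3037)
-/

set_option autoImplicit false

namespace Pool.Agent.TH56.FL

namespace OrdAux

/-- partial enumerations -/
structure Part {V : Type} (T : SimpleGraph V) (r : V) (n : ℕ) (v : ℕ → V) (p : ℕ → ℕ) : Prop where
  zero : v 0 = r
  lt : ∀ i, 1 ≤ i → i ≤ n → p i < i
  inj : ∀ i j, i ≤ n → j ≤ n → v i = v j → i = j
  adj : ∀ i, 1 ≤ i → i ≤ n → T.Adj (v i) (v (p i))
  jmp : ∀ i, 1 ≤ i → i ≤ n → p i + 1 ≠ i → ∀ y, T.Adj (v (i - 1)) y → ∃ j < i, v j = y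

theorem ext {V : Type} {T : SimpleGraph V} {r : V} {n : ℕ} {v : ℕ → V} {p : ℕ → ℕ}
    (h : Part T r n v p) (y : V) (q : ℕ) (hq : q ≤ n) (hy : ∀ j ≤ n, v j ≠ y)
    (hadj : T.Adj y (v q)) (hj : q ≠ n → ∀ z, T.Adj (v n) z → ∃ j ≤ n, v j = z) :
    Part T r (n + 1) (Function.update v (n + 1) y) (Function.update p (n + 1) q) := by
  have hv : ∀ i, i ≤ n → Function.update v (n + 1) y i = v i := fun i hi =>
    Function.update_of_ne (by omega) _ _
  have hp : ∀ i, i ≤ n → Function.update p (n + 1) q i = p i := fun i hi =>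
    Function.update_of_ne (by omega) _ _
  have hv1 : Function.update v (n + 1) y (n + 1) = y := Function.update_self _ _ _
  have hp1 : Function.update p (n + 1) q (n + 1) = q := Function.update_self _ _ _
  refine ⟨?_, ?_, ?_, ?_, ?_⟩
  · rw [hv 0 (Nat.zero_le _)]; exact h.zero
  · intro i h1 h2
    rcases Nat.lt_or_ge n i with h3 | h3
    · have : i = n + 1 := by omega
      subst this
      rw [hp1]; omega
    · rw [hp i h3]; exact h.lt i h1 h3
  · intro i j hi hj' he
    rcases Nat.lt_or_ge n i with h3 | h3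
    · have h3' : i = n + 1 := by omega
      subst h3'
      rcases Nat.lt_or_ge n j with h4 | h4
      · omega
      · rw [hv1, hv j h4] at he
        exact absurd he.symm (hy j h4)
    · rcases Nat.lt_or_ge n j with h4 | h4
      · have h4' : j = n + 1 := by omega
        subst h4'
        rw [hv1, hv i h3] at he
        exact absurd he (hy i h3)
      · rw [hv i h3, hv j h4] at he
        exact h.inj i j h3 h4 he
  · intro i h1 h2
    rcases Nat.lt_or_ge n i with h3 | h3
    · have : i = n + 1 := by omega
      subst this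
      rw [hp1, hv1, hv q hq]; exact hadj
    · rw [hp i h3, hv i h3]
      have := h.lt i h1 h3
      rw [hv (p i) (by omega)]
      exact h.adj i h1 h3
  · intro i h1 h2 hne z hz
    rcases Nat.lt_or_ge n i with h3 | h3
    · have : i = n + 1 := by omega
      subst this
      rw [hp1] at hne
      have hz' : T.Adj (v n) z := by
        have : n + 1 - 1 = n := by omega
        rw [this, hv n le_rfl] at hz
        exact hz
      obtain ⟨j, hj1, hj2⟩ := hj (by omega) z hz'
      exact ⟨j, by omega, by rw [hv j hj1]; exact hj2⟩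
    · rw [hp i h3] at hne
      rw [hv (i - 1) (by omega)] at hz
      obtain ⟨j, hj1, hj2⟩ := h.jmp i h1 h3 hne z hz
      exact ⟨j, hj1, by rw [hv j (by omega)]; exact hj2⟩

theorem exists_part {V : Type} [Fintype V] {T : SimpleGraph V} (hT : T.IsTree) (r : V) (n : ℕ)
    (hn : n + 1 ≤ Fintype.card V) : ∃ v p, Part T r n v p := by
  classical
  induction n with
  | zero =>
    refine ⟨fun _ => r, fun _ => 0, rfl, ?_, ?_, ?_, ?_⟩
    · intro i h1 h2; omega
    · intro i j hi hj _; omega
    · intro i h1 h2; omega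
    · intro i h1 h2; omega
  | succ n ih =>
    obtain ⟨v, p, h⟩ := ih (by omega)
    by_cases hc : ∃ y, T.Adj (v n) y ∧ ∀ j ≤ n, v j ≠ y
    · obtain ⟨y, hy1, hy2⟩ := hc
      exact ⟨_, _, ext h y n le_rfl hy2 hy1.symm (fun hne => absurd rfl hne)⟩
    · push Not at hc
      -- the placed set
      let S : Set V := {x | ∃ j ≤ n, v j = x}
      have hS : ∃ z, z ∉ S := by
        by_contra hcon
        push Not at hcon
        have hsurj : Function.Surjective (fun i : Fin (n + 1) => v i) := by
          intro x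
          obtain ⟨j, hj, hx⟩ := hcon x
          exact ⟨⟨j, by omega⟩, hx⟩
        have := Fintype.card_le_of_surjective _ hsurj
        rw [Fintype.card_fin] at this
        omega
      obtain ⟨z, hz⟩ := hS
      have h0 : v 0 ∈ S := ⟨0, Nat.zero_le _, rfl⟩
      obtain ⟨W⟩ := hT.1.preconnected (v 0) z
      obtain ⟨d, -, hd1, hd2⟩ := W.exists_boundary_dart S h0 hz
      obtain ⟨q, hq, hqv⟩ := hd1
      refine ⟨_, _, ext h d.snd q hq ?_ ?_ ?_⟩
      · intro j hj hv
        exact hd2 ⟨j, hj, hv⟩
      · rw [hqv]; exact d.adj.symm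
      · intro _ x hx
        obtain ⟨j, hj, hv⟩ := hc x hx
        exact ⟨j, hj, hv⟩

end OrdAux

open OrdAux in
theorem ord : OrdStm := by
  classical
  intro V _ T hT hm
  have hcard : T.edgeSet.ncard + 1 = Fintype.card V := by
    have h1 := hT.card_edgeFinset
    have h2 : T.edgeSet.ncard = T.edgeFinset.card := by
      rw [Set.ncard_eq_toFinset_card']
      rfl
    rw [h2]; exact h1
  set m := T.edgeSet.ncard with hmdef
  have hnt : Nontrivial V := Fintype.one_lt_card_iff_nontrivial.mp (by omega)
  obtain ⟨r, hr⟩ := hT.exists_vert_degree_one_of_nontrivial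
  obtain ⟨v, p, h⟩ := exists_part hT r m (by omega)
  have hsurj : ∀ x : V, ∃ i ≤ m, v i = x := by
    have hinj : Function.Injective (fun i : Fin (m + 1) => v i) := by
      intro i j hij
      have := h.inj i j (by omega) (by omega) hij
      exact Fin.ext this
    have hbij : Function.Bijective (fun i : Fin (m + 1) => v i) :=
      (Fintype.bijective_iff_injective_and_card _).mpr ⟨hinj, by rw [Fintype.card_fin]; exact hcard⟩
    intro x
    obtain ⟨i, hi⟩ := hbij.2 x
    exact ⟨i, by omega, hi⟩
  have hadj : ∀ x y : V, T.Adj x y → ∃ i, 1 ≤ i ∧ i ≤ m ∧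
      ((v i = x ∧ v (p i) = y) ∨ (v i = y ∧ v (p i) = x)) := by
    let g : ℕ → Sym2 V := fun i => s(v i, v (p i))
    have hginj : Set.InjOn g (Finset.Icc 1 m : Finset ℕ) := by
      intro i hi j hj hij
      simp only [Finset.coe_Icc, Set.mem_Icc] at hi hj
      have hpi := h.lt i hi.1 hi.2
      have hpj := h.lt j hj.1 hj.2
      rcases Sym2.eq_iff.mp hij with ⟨h1, -⟩ | ⟨h1, h2⟩
      · exact h.inj i j hi.2 hj.2 h1
      · have e1 := h.inj i (p j) hi.2 (by omega) h1
        have e2 := h.inj (p i) j (by omega) hj.2 h2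
        omega
    have hsub : (Finset.Icc 1 m).image g ⊆ T.edgeFinset := by
      intro e he
      obtain ⟨i, hi, rfl⟩ := Finset.mem_image.mp he
      rw [Finset.mem_Icc] at hi
      rw [SimpleGraph.mem_edgeFinset]
      exact h.adj i hi.1 hi.2
    have hc : T.edgeFinset.card ≤ ((Finset.Icc 1 m).image g).card := by
      rw [Finset.card_image_of_injOn hginj, Nat.card_Icc]
      have h1 := hT.card_edgeFinset
      omega
    have heq := Finset.eq_of_subset_of_card_le hsub hc
    intro x y hxy
    have : s(x, y) ∈ T.edgeFinset := by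
      rw [SimpleGraph.mem_edgeFinset]; exact hxy
    rw [← heq] at this
    obtain ⟨i, hi, he⟩ := Finset.mem_image.mp this
    rw [Finset.mem_Icc] at hi
    refine ⟨i, hi.1, hi.2, ?_⟩
    rcases Sym2.eq_iff.mp he with ⟨h1, h2⟩ | ⟨h1, h2⟩
    · exact Or.inl ⟨h1, h2⟩
    · exact Or.inr ⟨h1, h2⟩
  -- leaves
  have hleaf : ∀ t, 1 ≤ t → t ≤ m → (∀ j, 1 ≤ j → j ≤ m → p j ≠ t) →
      (T.neighborSet (v t)).ncard = 1 := by
    intro t h1 h2 h3
    have : T.neighborSet (v t) = {v (p t)} := by
      ext y
      rw [SimpleGraph.mem_neighborSet, Set.mem_singleton_iff]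
      constructor
      · intro hy
        obtain ⟨i, hi1, hi2, hi3⟩ := hadj _ _ hy
        rcases hi3 with ⟨h4, h5⟩ | ⟨-, h5⟩
        · have := h.inj i t hi2 h2 h4
          rw [← this]; exact h5.symm
        · have hpi := h.lt i hi1 hi2
          exact absurd (h.inj (p i) t (by omega) h2 h5) (h3 i hi1 hi2)
      · intro hy
        rw [hy]; exact h.adj t h1 h2
    rw [this, Set.ncard_singleton]
  refine ⟨v, p, h.lt, h.inj, hsurj, hadj, ?_⟩
  let I : Finset ℕ := insert 0 (insert m ((jumps m p).image (fun i => i - 1)))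
  have hjm : ∀ i ∈ jumps m p, 2 ≤ i ∧ i ≤ m ∧ p i + 1 ≠ i := by
    intro i hi
    rw [jumps, Finset.mem_filter, Finset.mem_Icc] at hi
    have hpi := h.lt i hi.1.1 hi.1.2
    refine ⟨?_, hi.1.2, hi.2⟩
    by_contra hcon
    have : i = 1 := by omega
    subst this
    apply hi.2
    omega
  have hI : I.card = (jumps m p).card + 2 := by
    have h1 : ((jumps m p).image (fun i => i - 1)).card = (jumps m p).card := by
      apply Finset.card_image_of_injOn
      intro i hi j hj hij
      have h2 := hjm i hi
      have h3 := hjm j hj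
      simp only at hij
      omega
    have h2 : m ∉ (jumps m p).image (fun i => i - 1) := by
      intro hcon
      obtain ⟨i, hi, he⟩ := Finset.mem_image.mp hcon
      have := hjm i hi
      omega
    have h3 : 0 ∉ insert m ((jumps m p).image (fun i => i - 1)) := by
      intro hcon
      rcases Finset.mem_insert.mp hcon with h4 | h4
      · omega
      · obtain ⟨i, hi, he⟩ := Finset.mem_image.mp h4
        have := hjm i hi
        omega
    rw [Finset.card_insert_of_notMem h3, Finset.card_insert_of_notMem h2, h1]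
  have hIm : ∀ i ∈ I, i ≤ m ∧ (T.neighborSet (v i)).ncard = 1 := by
    intro i hi
    rcases Finset.mem_insert.mp hi with rfl | hi
    · refine ⟨Nat.zero_le _, ?_⟩
      rw [h.zero]
      rw [Set.ncard_eq_toFinset_card']
      exact hr
    · rcases Finset.mem_insert.mp hi with rfl | hi
      · refine ⟨le_rfl, hleaf m hm le_rfl ?_⟩
        intro j h1 h2 h3
        have := h.lt j h1 h2
        omega
      · obtain ⟨j, hj, rfl⟩ := Finset.mem_image.mp hi
        have hj' := hjm j hj
        refine ⟨by omega, hleaf (j - 1) (by omega) (by omega) ?_⟩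
        intro q h1 h2 h3
        have hq := h.lt q h1 h2
        rcases Nat.lt_or_ge j q with h4 | h4
        · have hq' := h.adj q h1 h2
          rw [h3] at hq'
          obtain ⟨j', hj1, hj2⟩ := h.jmp j (by omega) hj'.2.1 hj'.2.2 (v q) hq'.symm
          have := h.inj j' q (by omega) h2 hj2
          omega
        · have : q = j := by omega
          subst this
          apply hj'.2.2
          omega
  have hinj : Set.InjOn v (I : Set ℕ) := fun i hi j hj hij =>
    h.inj i j (hIm i hi).1 (hIm j hj).1 hij
  have hle : ((I.image v : Finset V) : Set V).ncard ≤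
      {x : V | (T.neighborSet x).ncard = 1}.ncard := by
    apply Set.ncard_le_ncard _ (Set.toFinite _)
    intro x hx
    obtain ⟨i, hi, rfl⟩ := Finset.mem_image.mp (Finset.mem_coe.mp hx)
    exact (hIm i hi).2
  rw [Set.ncard_coe_finset, Finset.card_image_of_injOn hinj, hI] at hle
  exact hle

end Pool.Agent.TH56.FL
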