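import Pool.Agent.TH56.FL.Def

/-!
# Graceful supertrees of trees with few leaves: the positions
-/

set_option autoImplicit false

namespace Pool.Agent.TH56.FL

open Finset

/-- the number of jumps up to `i` -/
def rk (m : ℕ) (p : ℕ → ℕ) (i : ℕ) : ℕ := ((jumps m p).filter (fun k => k ≤ i)).card

/-- the state after the vertices `0, …, i` have been placed and the positions of the jumps in `R` have been
reserved -/
structure Inv (m : ℕ) (p : ℕ → ℕ) (M G om : ℕ) (i : ℕ) (R : Finset ℕ) (τ w : ℕ → ℕ) : Prop where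
  sub : R ⊆ jumps m p
  par : ∀ k ∈ R, p k ≤ i
  all : ∀ k ∈ jumps m p, p k < i → k ∈ R
  top : τ 0 = M
  lt : ∀ a b, a < b → b ≤ i → τ b < τ a
  low : ∀ j ≤ i, M ≤ τ j + j + G * rk m p j + om + 2 * (R.filter (fun k => τ j < w k)).card
  up : ∀ j ≤ i, τ j + j + G * rk m p j ≤ M
  lowS : ∀ k ∈ R, M ≤ τ k + k + G * rk m p k + om
  upS : ∀ k ∈ R, τ k + k + G * rk m p k ≤ M
  sum : ∀ k ∈ R, τ (p k) + τ k = 2 * w k + 1
  below : ∀ k ∈ R, τ k + 3 ≤ w k
  ne_w : ∀ j ≤ i, ∀ k ∈ R, τ j ≠ w k ∧ τ j + 1 ≠ w k
  ne_S : ∀ l ∈ R, ∀ k ∈ R, τ l ≠ w k ∧ τ l + 1 ≠ w k ∧ τ l + 2 ≠ w k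
  sep : ∀ k ∈ R, ∀ l ∈ R, k ≠ l → w k + 3 ≤ w l ∨ w l + 3 ≤ w k
  step : ∀ j, 1 ≤ j → j ≤ i → j ∉ jumps m p →
    (τ (j - 1) = τ j + 1 ∧ ∀ k ∈ R, τ j + 2 ≠ w k) ∨
    (∃ k ∈ R, τ j + 2 = w k ∧ τ (j - 1) = w k + 1)

theorem rk_le (m : ℕ) (p : ℕ → ℕ) (i : ℕ) : rk m p i ≤ (jumps m p).card :=
  card_le_card (filter_subset _ _)

theorem rk_mono {m : ℕ} {p : ℕ → ℕ} {i j : ℕ} (h : i ≤ j) : rk m p i ≤ rk m p j :=
  card_le_card (fun k hk => by
    rw [mem_filter] at hk ⊢
    exact ⟨hk.1, hk.2.trans h⟩)

theorem rk_lt {m : ℕ} {p : ℕ → ℕ} {i k : ℕ} (hk : k ∈ jumps m p) (h : i < k) :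
    rk m p i + 1 ≤ rk m p k := by
  have h1 : insert k ((jumps m p).filter (fun l => l ≤ i)) ⊆ (jumps m p).filter (fun l => l ≤ k) := by
    intro l hl
    rcases mem_insert.1 hl with rfl | hl
    · exact mem_filter.2 ⟨hk, le_refl _⟩
    · rw [mem_filter] at hl ⊢
      exact ⟨hl.1, by omega⟩
  have h2 : k ∉ (jumps m p).filter (fun l => l ≤ i) := by
    rw [mem_filter]
    rintro ⟨-, h3⟩
    omega
  have h3 := card_le_card h1
  rw [card_insert_of_notMem h2] at h3
  exact h3

theorem rk_succ {m : ℕ} {p : ℕ → ℕ} {i : ℕ} (h : i + 1 ∉ jumps m p) : rk m p (i + 1) = rk m p i := by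
  unfold rk
  congr 1
  ext l
  rw [mem_filter, mem_filter]
  refine and_congr_right fun hl => ⟨fun h1 => ?_, fun h1 => by omega⟩
  rcases Nat.eq_or_lt_of_le h1 with rfl | h2
  · exact absurd hl h
  · omega

/-- the choice of the position of a jump -/
theorem choose_pos (R : Finset ℕ) (τ w : ℕ → ℕ) (u b om : ℕ) (hb : om ≤ b) (hom : 20 * R.card + 1 ≤ om)
    (hu : b + 7 ≤ u) : ∃ a v : ℕ, a ≤ b ∧ b ≤ a + 20 * R.card + 1 ∧ u + a = 2 * v + 1 ∧
      ∀ l ∈ R, (v + 3 ≤ w l ∨ w l + 3 ≤ v) ∧ (τ l ≠ v ∧ τ l + 1 ≠ v ∧ τ l + 2 ≠ v) ∧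
        (a ≠ w l ∧ a + 1 ≠ w l ∧ a + 2 ≠ w l) := by
  classical
  obtain ⟨a0, ha0, ha1, ha2⟩ : ∃ a0, a0 ≤ b ∧ b ≤ a0 + 1 ∧ (u + a0) % 2 = 1 := by
    by_cases h : (u + b) % 2 = 1
    · exact ⟨b, le_refl _, by omega, h⟩
    · exact ⟨b - 1, by omega, by omega, by omega⟩
  obtain ⟨w0, hw0⟩ : ∃ w0, u + a0 = 2 * w0 + 1 := ⟨(u + a0) / 2, by omega⟩
  set Sl : ℕ → Finset ℕ := fun l => (range 5).image (fun j => w0 + 2 - w l - j) ∪
    (range 3).image (fun j => w0 - τ l - j) ∪ {(a0 - w l) / 2, (a0 - w l) / 2 + 1} with hSl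
  have hcard : ∀ l, (Sl l).card ≤ 10 := by
    intro l
    refine (card_union_le _ _).trans ?_
    have h1 : ((range 5).image (fun j => w0 + 2 - w l - j) ∪
      (range 3).image (fun j => w0 - τ l - j)).card ≤ 8 := by
      refine (card_union_le _ _).trans ?_
      have h2 := card_image_le (s := range 5) (f := fun j => w0 + 2 - w l - j)
      have h3 := card_image_le (s := range 3) (f := fun j => w0 - τ l - j)
      rw [card_range] at h2 h3
      omega
    have h2 : ({(a0 - w l) / 2, (a0 - w l) / 2 + 1} : Finset ℕ).card ≤ 2 := card_le_two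
    omega
  have hbad : (R.biUnion Sl).card ≤ R.card * 10 := card_biUnion_le_card_mul _ _ _ fun l _ => hcard l
  obtain ⟨c, hc1, hc2⟩ : ∃ c ∈ range (10 * R.card + 1), c ∉ R.biUnion Sl := by
    by_contra hcon
    push Not at hcon
    have h1 : range (10 * R.card + 1) ⊆ R.biUnion Sl := fun c hc => hcon c hc
    have h2 := card_le_card h1
    rw [card_range] at h2
    omega
  rw [mem_range] at hc1
  rw [mem_biUnion] at hc2
  push Not at hc2
  refine ⟨a0 - 2 * c, w0 - c, by omega, by omega, by omega, fun l hl => ?_⟩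
  have h := hc2 l hl
  rw [hSl] at h
  simp only [mem_union, not_or] at h
  obtain ⟨⟨h1, h2⟩, h3⟩ := h
  rw [mem_image] at h1 h2
  push Not at h1 h2
  simp only [mem_insert, mem_singleton, not_or] at h3
  refine ⟨?_, ?_, ?_⟩
  · by_contra hcon
    have h4 := h1 (w0 + 2 - w l - c) (by rw [mem_range]; omega)
    omega
  · refine ⟨fun h4 => ?_, fun h4 => ?_, fun h4 => ?_⟩
    · have h5 := h2 0 (by simp)
      omega
    · have h5 := h2 1 (by simp)
      omega
    · have h5 := h2 2 (by simp)
      omega
  · refine ⟨fun h4 => ?_, fun h4 => ?_, fun h4 => ?_⟩ <;> omega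

/-- reserving the position of one more jump -/
theorem Inv.add {m : ℕ} {p : ℕ → ℕ} {M G om i : ℕ} {R : Finset ℕ} {τ w : ℕ → ℕ}
    (h : Inv m p M G om i R τ w) (hG : G = 22 * (jumps m p).card + 3) (hom : om = 20 * (jumps m p).card)
    (hM : M = m + G * (jumps m p).card + om + 2 * (jumps m p).card)
    (hp : ∀ i, 1 ≤ i → i ≤ m → p i < i) {k : ℕ} (hk : k ∈ jumps m p) (hkR : k ∉ R) (hpk : p k = i) :
    ∃ τ' w' : ℕ → ℕ, Inv m p M G om i (insert k R) τ' w' := by
  classical
  obtain ⟨hk1, hk2⟩ := mem_filter.1 hk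
  rw [mem_Icc] at hk1
  have hpk' := hp k hk1.1 hk1.2
  have hik : i + 2 ≤ k := by omega
  have hRc : R.card + 1 ≤ (jumps m p).card := by
    have h1 : insert k R ⊆ jumps m p := insert_subset hk h.sub
    have h2 := card_le_card h1
    rwa [card_insert_of_notMem hkR] at h2
  have hr1 := rk_lt hk (show i < k by omega)
  have hr2 := rk_le m p k
  have hg1 : G * rk m p i + G ≤ G * rk m p k := by
    have := Nat.mul_le_mul_left G hr1
    rwa [Nat.mul_add, Nat.mul_one] at this
  have hg2 : G * rk m p k ≤ G * (jumps m p).card := Nat.mul_le_mul_left G hr2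
  have hlow := h.low i (le_refl _)
  have hfc : (R.filter (fun k => τ i < w k)).card ≤ R.card := card_le_card (filter_subset _ _)
  set J := (jumps m p).card with hJ
  set b := M - k - G * rk m p k with hb
  obtain ⟨a, v, a1, a2, a3, a4⟩ := choose_pos R τ w (τ i) b om (by omega) (by omega) (by omega)
  have hlt : ∀ j ≤ i, τ i ≤ τ j := by
    intro j hj
    rcases Nat.eq_or_lt_of_le hj with rfl | hj
    · exact le_refl _
    · exact (h.lt j i hj (le_refl _)).le
  have hne : ∀ j ≤ i, j ≠ k := fun j hj => by omega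
  have hneR : ∀ l ∈ R, l ≠ k := fun l hl hlk => hkR (hlk ▸ hl)
  have hτ : ∀ j, j ≠ k → Function.update τ k a j = τ j := fun j hj => Function.update_of_ne hj _ _
  have hw : ∀ j, j ≠ k → Function.update w k v j = w j := fun j hj => Function.update_of_ne hj _ _
  have hτk : Function.update τ k a k = a := Function.update_self _ _ _
  have hwk : Function.update w k v k = v := Function.update_self _ _ _
  refine ⟨Function.update τ k a, Function.update w k v, ?_⟩
  constructor
  · exact insert_subset hk h.sub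
  · intro l hl
    rcases mem_insert.1 hl with rfl | hl
    · exact hpk.le
    · exact h.par l hl
  · intro l hl hl2
    exact mem_insert_of_mem (h.all l hl hl2)
  · rw [hτ 0 (by omega)]
    exact h.top
  · intro x y hxy hy
    rw [hτ x (by omega), hτ y (by omega)]
    exact h.lt x y hxy hy
  · intro j hj
    rw [hτ j (hne j hj)]
    refine (h.low j hj).trans ?_
    have h1 : (R.filter (fun k => τ j < w k)).card ≤
        ((insert k R).filter (fun l => τ j < Function.update w k v l)).card := by
      refine card_le_card fun l hl => ?_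
      rw [mem_filter] at hl ⊢
      rw [hw l (hneR l hl.1)]
      exact ⟨mem_insert_of_mem hl.1, hl.2⟩
    omega
  · intro j hj
    rw [hτ j (hne j hj)]
    exact h.up j hj
  · intro l hl
    rcases mem_insert.1 hl with rfl | hl
    · rw [hτk]
      omega
    · rw [hτ l (hneR l hl)]
      exact h.lowS l hl
  · intro l hl
    rcases mem_insert.1 hl with rfl | hl
    · rw [hτk]
      omega
    · rw [hτ l (hneR l hl)]
      exact h.upS l hl
  · intro l hl
    rcases mem_insert.1 hl with rfl | hl
    · rw [hτk, hwk, hpk, hτ i (by omega)]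
      exact a3
    · have h1 := h.par l hl
      rw [hτ l (hneR l hl), hw l (hneR l hl), hτ (p l) (by omega)]
      exact h.sum l hl
  · intro l hl
    rcases mem_insert.1 hl with rfl | hl
    · rw [hτk, hwk]
      omega
    · rw [hτ l (hneR l hl), hw l (hneR l hl)]
      exact h.below l hl
  · intro j hj l hl
    rw [hτ j (hne j hj)]
    rcases mem_insert.1 hl with rfl | hl
    · rw [hwk]
      have := hlt j hj
      omega
    · rw [hw l (hneR l hl)]
      exact h.ne_w j hj l hl
  · intro l hl l' hl'
    rcases mem_insert.1 hl with e1 | e1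
    · rcases mem_insert.1 hl' with e2 | e2
      · rw [e1, e2, hτk, hwk]
        omega
      · rw [e1, hτk, hw l' (hneR l' e2)]
        exact (a4 l' e2).2.2
    · rcases mem_insert.1 hl' with e2 | e2
      · rw [e2, hτ l (hneR l e1), hwk]
        exact (a4 l e1).2.1
      · rw [hτ l (hneR l e1), hw l' (hneR l' e2)]
        exact h.ne_S l e1 l' e2
  · intro l hl l' hl' hll
    rcases mem_insert.1 hl with e1 | e1
    · rcases mem_insert.1 hl' with e2 | e2
      · exact absurd (e1.trans e2.symm) hll
      · rw [e1, hwk, hw l' (hneR l' e2)]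
        exact (a4 l' e2).1
    · rcases mem_insert.1 hl' with e2 | e2
      · rw [e2, hwk, hw l (hneR l e1)]
        exact (a4 l e1).1.symm
      · rw [hw l (hneR l e1), hw l' (hneR l' e2)]
        exact h.sep l e1 l' e2 hll
  · intro j hj1 hj2 hj3
    rw [hτ j (hne j hj2), hτ (j - 1) (by omega)]
    rcases h.step j hj1 hj2 hj3 with ⟨h1, h2⟩ | ⟨l, hl, h1, h2⟩
    · left
      refine ⟨h1, fun l hl => ?_⟩
      rcases mem_insert.1 hl with rfl | hl
      · rw [hwk]
        have := hlt j hj2
        omega
      · rw [hw l (hneR l hl)]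
        exact h2 l hl
    · right
      exact ⟨l, mem_insert_of_mem hl, by rw [hw l (hneR l hl)]; exact h1, by rw [hw l (hneR l hl)]; exact h2⟩

/-- placing the next vertex -/
theorem Inv.next {m : ℕ} {p : ℕ → ℕ} {M G om i : ℕ} {R : Finset ℕ} {τ w : ℕ → ℕ}
    (h : Inv m p M G om i R τ w) (hG : G = 22 * (jumps m p).card + 3) (hom : om = 20 * (jumps m p).card)
    (hM : M = m + G * (jumps m p).card + om + 2 * (jumps m p).card)
    (hp : ∀ i, 1 ≤ i → i ≤ m → p i < i) (him : i + 1 ≤ m) (hR : ∀ k ∈ jumps m p, p k ≤ i → k ∈ R) :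
    ∃ τ' w' : ℕ → ℕ, Inv m p M G om (i + 1) R τ' w' := by
  classical
  have hlow := h.low i (le_refl _)
  have hfc : (R.filter (fun k => τ i < w k)).card ≤ R.card := card_le_card (filter_subset _ _)
  have hRc : R.card ≤ (jumps m p).card := card_le_card h.sub
  have hr2 := rk_le m p i
  have hg2 : G * rk m p i ≤ G * (jumps m p).card := Nat.mul_le_mul_left G hr2
  by_cases hj : i + 1 ∈ jumps m p
  · -- the next vertex is a jump
    have hiR : i + 1 ∈ R := hR _ hj (by have := hp (i + 1) (by omega) him; omega)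
    have hr1 := rk_lt hj (show i < i + 1 by omega)
    have hg1 : G * rk m p i + G ≤ G * rk m p (i + 1) := by
      have := Nat.mul_le_mul_left G hr1
      rwa [Nat.mul_add, Nat.mul_one] at this
    have hu := h.upS _ hiR
    have hlt : τ (i + 1) < τ i := by omega
    refine ⟨τ, w, ?_⟩
    constructor
    · exact h.sub
    · intro k hk; have := h.par k hk; omega
    · intro k hk hk2; exact hR k hk (by omega)
    · exact h.top
    · intro x y hxy hy
      rcases Nat.eq_or_lt_of_le hy with rfl | hy
      · rcases Nat.eq_or_lt_of_le (show x ≤ i by omega) with rfl | hx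
        · exact hlt
        · exact hlt.trans (h.lt x i hx (le_refl _))
      · exact h.lt x y hxy (by omega)
    · intro j hj1
      rcases Nat.eq_or_lt_of_le hj1 with rfl | hj1
      · have := h.lowS _ hiR
        omega
      · exact h.low j (by omega)
    · intro j hj1
      rcases Nat.eq_or_lt_of_le hj1 with rfl | hj1
      · exact hu
      · exact h.up j (by omega)
    · exact h.lowS
    · exact h.upS
    · exact h.sum
    · exact h.below
    · intro j hj1 k hk
      rcases Nat.eq_or_lt_of_le hj1 with rfl | hj1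
      · have := h.ne_S _ hiR k hk
        exact ⟨this.1, this.2.1⟩
      · exact h.ne_w j (by omega) k hk
    · exact h.ne_S
    · exact h.sep
    · intro j hj1 hj2 hj3
      rcases Nat.eq_or_lt_of_le hj2 with rfl | hj2
      · exact absurd hj hj3
      · exact h.step j hj1 (by omega) hj3
  · -- the next vertex is a child of the present one
    have hiR : i + 1 ∉ R := fun h1 => hj (h.sub h1)
    have hrs := rk_succ hj
    have hnw := h.ne_w i (le_refl _)
    have key : ∃ t : ℕ, t < τ i ∧ t + (i + 1) + G * rk m p (i + 1) ≤ M ∧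
        M ≤ t + (i + 1) + G * rk m p (i + 1) + om + 2 * (R.filter (fun k => t < w k)).card ∧
        (∀ k ∈ R, t ≠ w k ∧ t + 1 ≠ w k) ∧
        ((τ i = t + 1 ∧ ∀ k ∈ R, t + 2 ≠ w k) ∨ (∃ k ∈ R, t + 2 = w k ∧ τ i = w k + 1)) := by
      have hup := h.up i (le_refl _)
      by_cases h1 : ∃ k ∈ R, w k + 1 = τ i
      · obtain ⟨k, hk, hk2⟩ := h1
        have hb := h.below k hk
        refine ⟨w k - 2, by omega, by rw [hrs]; omega, ?_, ?_, ?_⟩
        · have h2 : insert k (R.filter (fun k => τ i < w k)) ⊆ R.filter (fun l => w k - 2 < w l) := by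
            intro l hl
            rcases mem_insert.1 hl with rfl | hl
            · exact mem_filter.2 ⟨hk, by omega⟩
            · rw [mem_filter] at hl ⊢
              exact ⟨hl.1, by omega⟩
          have h3 := card_le_card h2
          rw [card_insert_of_notMem (by rw [mem_filter]; omega)] at h3
          rw [hrs]
          omega
        · intro l hl
          by_cases hkl : k = l
          · subst hkl; omega
          · have := h.sep k hk l hl hkl
            omega
        · right
          exact ⟨k, hk, by omega, by omega⟩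
      · push Not at h1
        have hpos : 1 ≤ τ i := by omega
        refine ⟨τ i - 1, by omega, by rw [hrs]; omega, ?_, ?_, ?_⟩
        · have h2 : R.filter (fun k => τ i < w k) ⊆ R.filter (fun l => τ i - 1 < w l) := by
            intro l hl
            rw [mem_filter] at hl ⊢
            exact ⟨hl.1, by omega⟩
          have h3 := card_le_card h2
          rw [hrs]
          omega
        · intro k hk
          have h3 := h1 k hk
          have h4 := hnw k hk
          omega
        · left
          refine ⟨by omega, fun k hk => ?_⟩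
          have h4 := hnw k hk
          omega
    obtain ⟨t, t1, t2, t3, t4, t5⟩ := key
    have hτ : ∀ j, j ≠ i + 1 → Function.update τ (i + 1) t j = τ j := fun j hj => Function.update_of_ne hj _ _
    have hτi : Function.update τ (i + 1) t (i + 1) = t := Function.update_self _ _ _
    have hneR : ∀ l ∈ R, l ≠ i + 1 := fun l hl hlk => hiR (hlk ▸ hl)
    refine ⟨Function.update τ (i + 1) t, w, ?_⟩
    constructor
    · exact h.sub
    · intro k hk; have := h.par k hk; omega
    · intro k hk hk2; exact hR k hk (by omega)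
    · rw [hτ 0 (by omega)]; exact h.top
    · intro x y hxy hy
      rcases Nat.eq_or_lt_of_le hy with rfl | hy
      · rw [hτi, hτ x (by omega)]
        rcases Nat.eq_or_lt_of_le (show x ≤ i by omega) with rfl | hx
        · exact t1
        · exact t1.trans (h.lt x i hx (le_refl _))
      · rw [hτ x (by omega), hτ y (by omega)]
        exact h.lt x y hxy (by omega)
    · intro j hj1
      rcases Nat.eq_or_lt_of_le hj1 with rfl | hj1
      · rw [hτi]
        exact t3
      · rw [hτ j (by omega)]
        exact h.low j (by omega)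
    · intro j hj1
      rcases Nat.eq_or_lt_of_le hj1 with rfl | hj1
      · rw [hτi]
        exact t2
      · rw [hτ j (by omega)]
        exact h.up j (by omega)
    · intro k hk
      rw [hτ k (hneR k hk)]
      exact h.lowS k hk
    · intro k hk
      rw [hτ k (hneR k hk)]
      exact h.upS k hk
    · intro k hk
      have h1 := h.par k hk
      rw [hτ k (hneR k hk), hτ (p k) (by omega)]
      exact h.sum k hk
    · intro k hk
      rw [hτ k (hneR k hk)]
      exact h.below k hk
    · intro j hj1 k hk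
      rcases Nat.eq_or_lt_of_le hj1 with rfl | hj1
      · rw [hτi]
        exact t4 k hk
      · rw [hτ j (by omega)]
        exact h.ne_w j (by omega) k hk
    · intro l hl k hk
      rw [hτ l (hneR l hl)]
      exact h.ne_S l hl k hk
    · exact h.sep
    · intro j hj1 hj2 hj3
      rcases Nat.eq_or_lt_of_le hj2 with rfl | hj2
      · rw [hτi, show i + 1 - 1 = i by omega, hτ i (by omega)]
        exact t5
      · rw [hτ j (by omega), hτ (j - 1) (by omega)]
        exact h.step j hj1 (by omega) hj3

/-- reserving the positions of all the jumps whose parent is the present vertex -/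
theorem Inv.addAll {m : ℕ} {p : ℕ → ℕ} {M G om i : ℕ} (hG : G = 22 * (jumps m p).card + 3)
    (hom : om = 20 * (jumps m p).card) (hM : M = m + G * (jumps m p).card + om + 2 * (jumps m p).card)
    (hp : ∀ i, 1 ≤ i → i ≤ m → p i < i) (n : ℕ) : ∀ (R : Finset ℕ) (τ w : ℕ → ℕ),
    Inv m p M G om i R τ w → ((jumps m p).filter (fun k => p k = i ∧ k ∉ R)).card = n →
    ∃ (R' : Finset ℕ) (τ' w' : ℕ → ℕ), Inv m p M G om i R' τ' w' ∧ ∀ k ∈ jumps m p, p k ≤ i → k ∈ R' := by
  classical
  induction n with
  | zero =>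
    intro R τ w h hn
    refine ⟨R, τ, w, h, fun k hk hki => ?_⟩
    rcases Nat.eq_or_lt_of_le hki with h1 | h1
    · by_contra h2
      have h3 : k ∈ (jumps m p).filter (fun k => p k = i ∧ k ∉ R) := mem_filter.2 ⟨hk, h1, h2⟩
      rw [card_eq_zero] at hn
      rw [hn] at h3
      simp at h3
    · exact h.all k hk h1
  | succ n ih =>
    intro R τ w h hn
    obtain ⟨k, hk⟩ : ((jumps m p).filter (fun k => p k = i ∧ k ∉ R)).Nonempty := by
      rw [← card_pos]
      omega
    obtain ⟨hk1, hk2, hk3⟩ := mem_filter.1 hk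
    obtain ⟨τ', w', h'⟩ := h.add hG hom hM hp hk1 hk3 hk2
    refine ih _ τ' w' h' ?_
    have h4 : (jumps m p).filter (fun l => p l = i ∧ l ∉ insert k R) =
        ((jumps m p).filter (fun k => p k = i ∧ k ∉ R)).erase k := by
      ext l
      simp only [mem_filter, mem_erase, mem_insert, not_or]
      tauto
    rw [h4, card_erase_of_mem hk, hn]
    omega

theorem pos : PosStm := by
  classical
  intro m p hp
  set J := (jumps m p).card with hJ
  obtain ⟨G, hG⟩ : ∃ G, G = 22 * J + 3 := ⟨_, rfl⟩
  obtain ⟨om, hom⟩ : ∃ om, om = 20 * J := ⟨_, rfl⟩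
  obtain ⟨M, hM⟩ : ∃ M, M = m + G * J + om + 2 * J := ⟨_, rfl⟩
  have hM' : m + J * (22 * J + 25) = M := by
    rw [hM, hG, hom]
    ring
  rw [hM']
  have main : ∀ i ≤ m, ∃ (R : Finset ℕ) (τ w : ℕ → ℕ), Inv m p M G om i R τ w ∧
      ∀ k ∈ jumps m p, p k ≤ i → k ∈ R := by
    intro i
    induction i with
    | zero =>
      intro _
      have h0 : Inv m p M G om 0 ∅ (fun _ => M) (fun _ => 0) := by
        have hr0 : rk m p 0 = 0 := by
          unfold rk
          rw [card_eq_zero, filter_eq_empty_iff]
          intro k hk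
          have := (mem_filter.1 hk).1
          rw [mem_Icc] at this
          omega
        constructor
        · simp
        · simp
        · intro k _ h; omega
        · rfl
        · intro a b h1 h2; omega
        · intro j hj; omega
        · intro j hj
          have : j = 0 := by omega
          subst this
          rw [hr0]
          omega
        · simp
        · simp
        · simp
        · simp
        · simp
        · simp
        · simp
        · intro j h1 h2; omega
      exact Inv.addAll hG hom hM hp _ _ _ _ h0 rfl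
    | succ i ih =>
      intro hi
      obtain ⟨R, τ, w, h1, h2⟩ := ih (by omega)
      obtain ⟨τ', w', h3⟩ := h1.next hG hom hM hp hi h2
      exact Inv.addAll hG hom hM hp _ _ _ _ h3 rfl
  obtain ⟨R, τ, w, h, hR⟩ := main m (le_refl _)
  have hall : ∀ k ∈ jumps m p, k ∈ R := by
    intro k hk
    refine hR k hk ?_
    have h1 := (mem_filter.1 hk).1
    rw [mem_Icc] at h1
    have := hp k h1.1 h1.2
    omega
  have hRj : R = jumps m p := Subset.antisymm h.sub hall
  subst hRj
  refine ⟨τ, w, ?_⟩
  constructor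
  · exact h.top
  · exact h.lt
  · exact h.sum
  · exact h.below
  · exact h.ne_w
  · exact h.sep
  · intro k hk l hl
    exact (h.ne_S k hk l hl).2.2
  · exact h.step

end Pool.Agent.TH56.FL
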