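import Pool.Agent.TH56.FL.Def

set_option autoImplicit false

namespace Pool.Agent.TH56.FL

namespace Sup

/-- the pair (parent of t, involution at t) -/
def Q (m : ℕ) (p τ w : ℕ → ℕ) (t a d : ℕ) : Prop :=
  (∃ k ∈ jumps m p, t = τ k ∧ a = τ (p k) ∧ d = w k) ∨
  (∃ k ∈ jumps m p, t = w k ∧ d = τ k ∧
    ((t ≤ 2 * τ k + 1 ∧ a + t = 2 * τ k + 1) ∨ (2 * τ k + 2 ≤ t ∧ a + (2 * τ k + 2) = t))) ∨
  (∃ k ∈ jumps m p, t + 1 = w k ∧ a + 1 = t ∧ d = a) ∨
  (∃ k ∈ jumps m p, t + 2 = w k ∧ a = t + 3 ∧ d = t + 1) ∨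
  ((∀ k ∈ jumps m p, t ≠ τ k ∧ t ≠ w k ∧ t + 1 ≠ w k ∧ t + 2 ≠ w k) ∧ a = t + 1 ∧ d = t)

/-- the labelling -/
def lam (M t : ℕ) : ℕ := if (M - t) % 2 = 0 then (M - t) / 2 else (M + 1 + t) / 2

section

variable {m : ℕ} {p : ℕ → ℕ} {M : ℕ} {τ w : ℕ → ℕ}

lemma mem_jumps {k : ℕ} (hk : k ∈ jumps m p) : 1 ≤ k ∧ k ≤ m ∧ p k + 1 ≠ k := by
  unfold jumps at hk
  obtain ⟨h1, h2⟩ := Finset.mem_filter.mp hk
  obtain ⟨h3, h4⟩ := Finset.mem_Icc.mp h1
  exact ⟨h3, h4, h2⟩

lemma tau_le (hG : Good m p M τ w) {i : ℕ} (hi : i ≤ m) : τ i ≤ M := by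
  rcases Nat.eq_zero_or_pos i with rfl | h
  · rw [hG.top]
  · have := hG.lt 0 i h hi
    rw [hG.top] at this
    omega

lemma tau_lt (hG : Good m p M τ w) {i : ℕ} (h1 : 1 ≤ i) (hi : i ≤ m) : τ i < M := by
  have := hG.lt 0 i h1 hi
  rwa [hG.top] at this

lemma tau_ne (hG : Good m p M τ w) {i j : ℕ} (hi : i ≤ m) (hj : j ≤ m) (h : i ≠ j) :
    τ i ≠ τ j := by
  rcases Nat.lt_or_gt_of_ne h with h | h
  · exact (hG.lt i j h hj).ne'
  · exact (hG.lt j i h hi).ne

lemma facts (hp : ∀ i, 1 ≤ i → i ≤ m → p i < i) (hG : Good m p M τ w) {k : ℕ}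
    (hk : k ∈ jumps m p) : τ (p k) ≤ M ∧ τ (p k) + τ k = 2 * w k + 1 ∧ τ k + 3 ≤ w k ∧
      w k + 4 ≤ τ (p k) ∧ p k ≤ m := by
  obtain ⟨h1, h2, _⟩ := mem_jumps hk
  have h3 := hp k h1 h2
  have h4 : p k ≤ m := by omega
  have h5 := tau_le hG h4
  have h6 := hG.sum k hk
  have h7 := hG.below k hk
  exact ⟨h5, h6, h7, by omega, h4⟩

lemma pair (hp : ∀ i, 1 ≤ i → i ≤ m → p i < i) (hG : Good m p M τ w) {k l : ℕ}
    (hk : k ∈ jumps m p) (hl : l ∈ jumps m p) :
    (k = l ∨ (τ k ≠ τ l ∧ (w k + 3 ≤ w l ∨ w l + 3 ≤ w k))) ∧ τ k ≠ w l ∧ τ k + 1 ≠ w l ∧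
      τ k + 2 ≠ w l ∧ τ (p k) ≠ w l ∧ τ (p k) + 1 ≠ w l := by
  obtain ⟨h1, h2, _⟩ := mem_jumps hk
  obtain ⟨h1', h2', _⟩ := mem_jumps hl
  obtain ⟨_, _, _, _, h3⟩ := facts hp hG hk
  refine ⟨?_, (hG.ne_w k h2 l hl).1, (hG.ne_w k h2 l hl).2, hG.start k hk l hl,
    (hG.ne_w _ h3 l hl).1, (hG.ne_w _ h3 l hl).2⟩
  by_cases h : k = l
  · exact Or.inl h
  · exact Or.inr ⟨tau_ne hG h2 h2' h, hG.sep k hk l hl h⟩

lemma exQ (t : ℕ) (hp : ∀ i, 1 ≤ i → i ≤ m → p i < i) (hG : Good m p M τ w) :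
    ∃ a d, Q m p τ w t a d := by
  by_cases h1 : ∃ k ∈ jumps m p, t = τ k
  · obtain ⟨k, hk, h⟩ := h1
    exact ⟨_, _, Or.inl ⟨k, hk, h, rfl, rfl⟩⟩
  by_cases h2 : ∃ k ∈ jumps m p, t = w k
  · obtain ⟨k, hk, h⟩ := h2
    by_cases h3 : t ≤ 2 * τ k + 1
    · exact ⟨2 * τ k + 1 - t, τ k, Or.inr (Or.inl ⟨k, hk, h, rfl, Or.inl ⟨h3, by omega⟩⟩)⟩
    · exact ⟨t - (2 * τ k + 2), τ k, Or.inr (Or.inl ⟨k, hk, h, rfl,
        Or.inr ⟨by omega, by omega⟩⟩)⟩
  by_cases h3 : ∃ k ∈ jumps m p, t + 1 = w k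
  · obtain ⟨k, hk, h⟩ := h3
    obtain ⟨_, _, h5, _, _⟩ := facts hp hG hk
    exact ⟨t - 1, t - 1, Or.inr (Or.inr (Or.inl ⟨k, hk, h, by omega, rfl⟩))⟩
  by_cases h4 : ∃ k ∈ jumps m p, t + 2 = w k
  · obtain ⟨k, hk, h⟩ := h4
    exact ⟨t + 3, t + 1, Or.inr (Or.inr (Or.inr (Or.inl ⟨k, hk, h, rfl, rfl⟩)))⟩
  · push Not at h1 h2 h3 h4
    exact ⟨t + 1, t, Or.inr (Or.inr (Or.inr (Or.inr ⟨fun k hk =>
      ⟨h1 k hk, h2 k hk, h3 k hk, h4 k hk⟩, rfl, rfl⟩)))⟩

lemma uniqQ (hp : ∀ i, 1 ≤ i → i ≤ m → p i < i) (hG : Good m p M τ w) {t a d a' d' : ℕ}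
    (h : Q m p τ w t a d) (h' : Q m p τ w t a' d') : a = a' := by
  rcases h with ⟨k, hk, h1, h2, h3⟩ | ⟨k, hk, h1, h2, h3⟩ | ⟨k, hk, h1, h2, h3⟩ |
    ⟨k, hk, h1, h2, h3⟩ | ⟨h1, h2, h3⟩ <;>
  rcases h' with ⟨l, hl, h1', h2', h3'⟩ | ⟨l, hl, h1', h2', h3'⟩ | ⟨l, hl, h1', h2', h3'⟩ |
    ⟨l, hl, h1', h2', h3'⟩ | ⟨h1', h2', h3'⟩
  all_goals first
    | (obtain ⟨e1, e2, e3, e4, e5, e6⟩ := pair hp hG hk hl
       obtain ⟨e1', e2', e3', e4', e5', e6'⟩ := pair hp hG hl hk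
       have f1 := facts hp hG hk
       have f2 := facts hp hG hl
       rcases e1 with rfl | e1
       · omega
       · omega)
    | (have g1 := h1' k hk
       omega)
    | (have g1 := h1 l hl
       omega)
    | omega

lemma injQ (hp : ∀ i, 1 ≤ i → i ≤ m → p i < i) (hG : Good m p M τ w) {t a d t' a' : ℕ}
    (h : Q m p τ w t a d) (h' : Q m p τ w t' a' d) : t = t' := by
  rcases h with ⟨k, hk, h1, h2, h3⟩ | ⟨k, hk, h1, h2, h3⟩ | ⟨k, hk, h1, h2, h3⟩ |
    ⟨k, hk, h1, h2, h3⟩ | ⟨h1, h2, h3⟩ <;>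
  rcases h' with ⟨l, hl, h1', h2', h3'⟩ | ⟨l, hl, h1', h2', h3'⟩ | ⟨l, hl, h1', h2', h3'⟩ |
    ⟨l, hl, h1', h2', h3'⟩ | ⟨h1', h2', h3'⟩
  all_goals first
    | (obtain ⟨e1, e2, e3, e4, e5, e6⟩ := pair hp hG hk hl
       obtain ⟨e1', e2', e3', e4', e5', e6'⟩ := pair hp hG hl hk
       have f1 := facts hp hG hk
       have f2 := facts hp hG hl
       rcases e1 with rfl | e1
       · omega
       · omega)
    | (have g1 := h1' k hk
       omega)
    | (have g1 := h1 l hl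
       omega)
    | omega

lemma bounds (hp : ∀ i, 1 ≤ i → i ≤ m → p i < i) (hG : Good m p M τ w) {t a d : ℕ}
    (ht : t < M) (h : Q m p τ w t a d) : a ≤ M ∧ d < M ∧ a ≠ t := by
  rcases h with ⟨k, hk, h1, h2, h3⟩ | ⟨k, hk, h1, h2, h3⟩ | ⟨k, hk, h1, h2, h3⟩ |
    ⟨k, hk, h1, h2, h3⟩ | ⟨h1, h2, h3⟩
  · have := facts hp hG hk
    omega
  · have := facts hp hG hk
    omega
  · have := facts hp hG hk
    omega
  · have := facts hp hG hk
    omega
  · omega

lemma label (hp : ∀ i, 1 ≤ i → i ≤ m → p i < i) (hG : Good m p M τ w) {t a d : ℕ}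
    (ht : t < M) (h : Q m p τ w t a d) : Int.natAbs ((lam M t : ℤ) - (lam M a : ℤ)) = d + 1 := by
  have hb := bounds hp hG ht h
  unfold lam
  rcases h with ⟨k, hk, h1, h2, h3⟩ | ⟨k, hk, h1, h2, h3⟩ | ⟨k, hk, h1, h2, h3⟩ |
    ⟨k, hk, h1, h2, h3⟩ | ⟨h1, h2, h3⟩
  · have := facts hp hG hk
    split_ifs <;> omega
  · have := facts hp hG hk
    split_ifs <;> omega
  · have := facts hp hG hk
    split_ifs <;> omega
  · have := facts hp hG hk
    split_ifs <;> omega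
  · split_ifs <;> omega

lemma lam_inj {s t : ℕ} (hs : s ≤ M) (ht : t ≤ M) (h : lam M s = lam M t) : s = t := by
  unfold lam at h
  split_ifs at h <;> omega

lemma lam_le {s : ℕ} (hs : s ≤ M) : lam M s ≤ M := by
  unfold lam
  split_ifs <;> omega

end

end Sup

open Sup in
theorem sup : SupStm := by
  intro m p hp M τ w hG
  choose par del hQ using fun t => exQ (m := m) (p := p) (M := M) (τ := τ) (w := w) t hp hG
  have hpar : ∀ t, t < M → par t ≤ M := fun t ht => (bounds hp hG ht (hQ t)).1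
  have hdel : ∀ t, t < M → del t < M := fun t ht => (bounds hp hG ht (hQ t)).2.1
  have hne : ∀ t, t < M → par t ≠ t := fun t ht => (bounds hp hG ht (hQ t)).2.2
  have hinj : ∀ t t', del t = del t' → t = t' := by
    intro t t' h
    have h1 := hQ t'
    rw [← h] at h1
    exact injQ hp hG (hQ t) h1
  have hlab : ∀ t, t < M → Int.natAbs ((lam M t : ℤ) - (lam M (par t) : ℤ)) = del t + 1 :=
    fun t ht => label hp hG ht (hQ t)
  obtain ⟨T', hT'⟩ : ∃ T' : SimpleGraph (Fin (M + 1)), ∀ a b, T'.Adj a b ↔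
      ((a : ℕ) < M ∧ (b : ℕ) = par a) ∨ ((b : ℕ) < M ∧ (a : ℕ) = par b) := by
    refine ⟨SimpleGraph.fromRel (fun a b => (a : ℕ) < M ∧ (b : ℕ) = par a), fun a b => ?_⟩
    rw [SimpleGraph.fromRel_adj]
    constructor
    · exact fun h => h.2
    · intro h
      refine ⟨?_, h⟩
      rintro rfl
      rcases h with h | h
      · exact hne _ h.1 h.2.symm
      · exact hne _ h.1 h.2.symm
  -- edges
  let E : Fin M → Sym2 (Fin (M + 1)) := fun t =>
    s(⟨t.1, by omega⟩, ⟨par t.1, Nat.lt_succ_of_le (hpar t.1 t.2)⟩)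
  have hE : T'.edgeSet = Set.range E := by
    ext e
    induction e using Sym2.ind with
    | _ u v =>
      rw [SimpleGraph.mem_edgeSet, hT']
      constructor
      · rintro (⟨h1, h2⟩ | ⟨h1, h2⟩)
        · refine ⟨⟨u, h1⟩, ?_⟩
          refine Sym2.eq_iff.mpr (Or.inl ⟨rfl, Fin.ext h2.symm⟩)
        · refine ⟨⟨v, h1⟩, ?_⟩
          refine Sym2.eq_iff.mpr (Or.inr ⟨rfl, Fin.ext h2.symm⟩)
      · rintro ⟨t, ht⟩
        rcases Sym2.eq_iff.mp ht with ⟨h1, h2⟩ | ⟨h1, h2⟩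
        · rw [← h1, ← h2]
          exact Or.inl ⟨t.2, rfl⟩
        · rw [← h1, ← h2]
          exact Or.inr ⟨t.2, rfl⟩
  have hEinj : Function.Injective E := by
    intro t t' h
    rcases Sym2.eq_iff.mp h with ⟨h1, h2⟩ | ⟨h1, h2⟩
    · exact Fin.ext (Fin.mk.inj_iff.mp h1)
    · have h3 : (t : ℕ) = par t' := Fin.mk.inj_iff.mp h1
      have h4 : par t = (t' : ℕ) := Fin.mk.inj_iff.mp h2
      have h5 := hlab t t.2
      have h6 := hlab t' t'.2
      rw [h4] at h5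
      rw [← h3] at h6
      have h7 : del t = del t' := by omega
      exact Fin.ext (hinj _ _ h7)
  have hcard : T'.edgeSet.ncard = M := by
    rw [hE, ← Set.image_univ, Set.ncard_image_of_injective _ hEinj, Set.ncard_univ]
    simp
  -- connectedness
  have hadj : ∀ (t : ℕ) (ht : t < M) (h' : par t < M + 1),
      T'.Adj ⟨t, by omega⟩ ⟨par t, h'⟩ := by
    intro t ht h'
    rw [hT']
    exact Or.inl ⟨ht, rfl⟩
  have hr1 : ∀ (n t : ℕ) (ht : t < M + 1), M - t ≤ n → (∀ k ∈ jumps m p, t ≠ w k) →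
      T'.Reachable ⟨t, ht⟩ ⟨M, Nat.lt_succ_self M⟩ := by
    intro n
    induction n with
    | zero =>
      intro t ht h1 h2
      have h3 : t = M := by omega
      subst h3
      exact SimpleGraph.Reachable.refl _
    | succ n ih =>
      intro t ht h1 h2
      by_cases h3 : t = M
      · subst h3
        exact SimpleGraph.Reachable.refl _
      · have ht' : t < M := by omega
        have h4 := hpar t ht'
        have h5 := hadj t ht' (by omega)
        rcases hQ t with ⟨k, hk, e1, e2, e3⟩ | ⟨k, hk, e1, e2, e3⟩ | ⟨k, hk, e1, e2, e3⟩ |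
          ⟨k, hk, e1, e2, e3⟩ | ⟨e1, e2, e3⟩
        · have f1 := facts hp hG hk
          refine h5.reachable.trans (ih (par t) (by omega) (by omega) ?_)
          intro l hl
          have f2 := pair hp hG hk hl
          rw [e2]
          exact f2.2.2.2.2.1
        · exact absurd e1 (h2 k hk)
        · have f1 := facts hp hG hk
          have f3 : Q m p τ w (par t) (par t + 3) (par t + 1) :=
            Or.inr (Or.inr (Or.inr (Or.inl ⟨k, hk, by omega, rfl, rfl⟩)))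
          have f4 : par (par t) = par t + 3 := uniqQ hp hG (hQ (par t)) f3
          have f5 := hadj (par t) (by omega) (by omega)
          refine h5.reachable.trans (f5.reachable.trans (ih (par (par t)) (by omega) (by omega) ?_))
          intro l hl
          have f2 := pair hp hG hk hl
          rcases f2.1 with rfl | f2
          · omega
          · omega
        · have f1 := facts hp hG hk
          refine h5.reachable.trans (ih (par t) (by omega) (by omega) ?_)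
          intro l hl
          have f2 := pair hp hG hk hl
          rcases f2.1 with rfl | f2
          · omega
          · omega
        · refine h5.reachable.trans (ih (par t) (by omega) (by omega) ?_)
          intro l hl
          have := e1 l hl
          omega
  have hr2 : ∀ (n t : ℕ) (ht : t < M + 1), t ≤ n →
      T'.Reachable ⟨t, ht⟩ ⟨M, Nat.lt_succ_self M⟩ := by
    intro n
    induction n with
    | zero =>
      intro t ht h1
      by_cases h : ∃ k ∈ jumps m p, t = w k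
      · obtain ⟨k, hk, h⟩ := h
        have f1 := facts hp hG hk
        omega
      · push Not at h
        exact hr1 _ t ht le_rfl h
    | succ n ih =>
      intro t ht h1
      by_cases h : ∃ k ∈ jumps m p, t = w k
      · obtain ⟨k, hk, h⟩ := h
        have f1 := facts hp hG hk
        have ht' : t < M := by omega
        have h4 := hpar t ht'
        have h5 := hadj t ht' (by omega)
        refine h5.reachable.trans (ih (par t) (by omega) ?_)
        have h6 : par t < t := by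
          by_cases h7 : t ≤ 2 * τ k + 1
          · have h8 : Q m p τ w t (2 * τ k + 1 - t) (τ k) :=
              Or.inr (Or.inl ⟨k, hk, h, rfl, Or.inl ⟨h7, by omega⟩⟩)
            have h9 := uniqQ hp hG (hQ t) h8
            omega
          · have h8 : Q m p τ w t (t - (2 * τ k + 2)) (τ k) :=
              Or.inr (Or.inl ⟨k, hk, h, rfl, Or.inr ⟨by omega, by omega⟩⟩)
            have h9 := uniqQ hp hG (hQ t) h8
            omega
        omega
      · push Not at h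
        exact hr1 _ t ht le_rfl h
  have hconn : T'.Connected := by
    refine SimpleGraph.Connected.mk fun u v => ?_
    exact (hr2 _ u.1 u.2 le_rfl).trans (hr2 _ v.1 v.2 le_rfl).symm
  refine ⟨T', ?_, hcard, ?_, ?_⟩
  · rw [SimpleGraph.isTree_iff_connected_and_card]
    refine ⟨hconn, ?_⟩
    have : Nat.card T'.edgeSet = M := hcard
    rw [this]
    simp
  · refine ⟨fun v => lam M v, ?_, ?_, ?_⟩
    · intro u v h
      exact Fin.ext (lam_inj (Nat.le_of_lt_succ u.2) (Nat.le_of_lt_succ v.2) h)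
    · intro v
      rw [hcard]
      exact lam_le (Nat.le_of_lt_succ v.2)
    · rw [hcard]
      ext d
      simp only [Set.mem_ofPred_eq, Set.mem_Icc]
      constructor
      · rintro ⟨u, v, h, rfl⟩
        rcases (hT' u v).mp h with ⟨h1, h2⟩ | ⟨h1, h2⟩
        · have h3 := hlab u h1
          have h4 := hdel u h1
          rw [← h2] at h3
          omega
        · have h3 := hlab v h1
          have h4 := hdel v h1
          rw [← h2] at h3
          omega
      · rintro ⟨h1, h2⟩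
        let D : Fin M → Fin M := fun t => ⟨del t.1, hdel t.1 t.2⟩
        have hD : Function.Injective D := by
          intro t t' h
          exact Fin.ext (hinj _ _ (Fin.mk.inj_iff.mp h))
        obtain ⟨t, ht⟩ := (Finite.surjective_of_injective hD) ⟨d - 1, by omega⟩
        have h3 : del t.1 = d - 1 := Fin.mk.inj_iff.mp ht
        refine ⟨⟨t.1, by omega⟩, ⟨par t.1, Nat.lt_succ_of_le (hpar t.1 t.2)⟩,
          hadj t.1 t.2 _, ?_⟩
        have h4 := hlab t.1 t.2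
        simp only
        omega
  · intro i h1 h2 a b ha hb
    have h3 := tau_lt hG h1 h2
    rw [hT']
    refine Or.inl ⟨by omega, ?_⟩
    rw [ha, hb]
    by_cases hi : i ∈ jumps m p
    · have h4 : Q m p τ w (τ i) (τ (p i)) (w i) := Or.inl ⟨i, hi, rfl, rfl, rfl⟩
      exact uniqQ hp hG h4 (hQ (τ i))
    · have h5 : p i + 1 = i := by
        by_contra h5
        exact hi (Finset.mem_filter.mpr ⟨Finset.mem_Icc.mpr ⟨h1, h2⟩, h5⟩)
      have h6 : p i = i - 1 := by omega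
      rw [h6]
      rcases hG.step i h1 h2 hi with ⟨h7, h8⟩ | ⟨k, hk, h7, h8⟩
      · have h9 : Q m p τ w (τ i) (τ i + 1) (τ i) := by
          refine Or.inr (Or.inr (Or.inr (Or.inr ⟨fun k hk => ?_, rfl, rfl⟩)))
          obtain ⟨g1, g2, _⟩ := mem_jumps hk
          have g3 : i ≠ k := fun h => hi (h ▸ hk)
          exact ⟨tau_ne hG h2 g2 g3, (hG.ne_w i h2 k hk).1, (hG.ne_w i h2 k hk).2, h8 k hk⟩
        rw [h7]
        exact uniqQ hp hG h9 (hQ (τ i))
      · have h9 : Q m p τ w (τ i) (τ i + 3) (τ i + 1) :=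
          Or.inr (Or.inr (Or.inr (Or.inl ⟨k, hk, h7, rfl, rfl⟩)))
        rw [h8, show w k + 1 = τ i + 3 by omega]
        exact uniqQ hp hG h9 (hQ (τ i))

end Pool.Agent.TH56.FL
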